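import Mathlib
import Pool.Agent.R351.GF.Scale

/-!
# Independence over extensions of the base ring, expansions of polynomials
-/

set_option autoImplicit false

namespace Pool.Agent.Run7.h643.MS

open Pool.Agent.R351.GF Algebra

section Over

variable {F : Type} [Field F] (R : Subring F)

/-- the ring `R[G]` -/
def ovr (G : Set F) : Subring F := (Algebra.adjoin R G).toSubring

variable {R}

theorem mem_over_of_mem {G : Set F} {x : F} (h : x ∈ R) : x ∈ ovr R G :=
  (Algebra.adjoin R G).algebraMap_mem ⟨x, h⟩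

theorem mem_over_of_gen {G : Set F} {x : F} (h : x ∈ G) : x ∈ ovr R G := Algebra.subset_adjoin h

theorem alg_transfer {A B K : Type} [CommRing A] [CommRing B] [Field K] [Algebra A K] [Algebra B K]
    (hA : Function.Injective (algebraMap A K)) (hB : Function.Injective (algebraMap B K))
    (h : ∀ a : A, ∃ b : B, algebraMap B K b = algebraMap A K a) {y : K}
    (hy : ∃ p : Polynomial A, p ≠ 0 ∧ Polynomial.aeval y p = 0) :
    ∃ p : Polynomial B, p ≠ 0 ∧ Polynomial.aeval y p = 0 := by
  choose c hc using h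
  obtain ⟨ι, hι⟩ : ∃ ι : A →+* B, ∀ a, ι a = c a :=
    ⟨{ toFun := c
       map_one' := hB (by rw [hc, map_one, map_one])
       map_mul' := fun a b => hB (by rw [hc, map_mul, map_mul, hc, hc])
       map_zero' := hB (by rw [hc, map_zero, map_zero])
       map_add' := fun a b => hB (by rw [hc, map_add, map_add, hc, hc]) }, fun _ => rfl⟩
  have hinj : Function.Injective ι := by
    intro a b h
    apply hA
    rw [← hc a, ← hc b, ← hι, ← hι, h]
  obtain ⟨p, hp0, hp⟩ := hy
  have hcomp : (algebraMap B K).comp ι = algebraMap A K := by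
    ext a
    rw [RingHom.comp_apply, hι, hc]
  refine ⟨p.map ι, (Polynomial.map_ne_zero_iff hinj).2 hp0, ?_⟩
  rw [Polynomial.aeval_def, Polynomial.eval₂_map, hcomp]
  rw [Polynomial.aeval_def] at hp
  exact hp

theorem acl_over {G T : Set F} : acl (ovr R G) T ⊆ acl R (G ∪ T) := by
  intro y hy
  rw [mem_acl] at hy ⊢
  have hle : ∀ z ∈ (adjoin (ovr R G) T), z ∈ adjoin R (G ∪ T) := by
    intro z hz
    induction hz using Algebra.adjoin_induction with
    | mem x hx => exact Algebra.subset_adjoin (Or.inr hx)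
    | algebraMap r =>
      have h1 : (r : F) ∈ Algebra.adjoin R G := r.2
      exact Algebra.adjoin_mono Set.subset_union_left h1
    | add x y _ _ h1 h2 => exact add_mem h1 h2
    | mul x y _ _ h1 h2 => exact mul_mem h1 h2
  exact alg_transfer (A := adjoin (ovr R G) T) (B := adjoin R (G ∪ T)) Subtype.val_injective Subtype.val_injective
    (fun a => ⟨⟨a, hle a a.2⟩, rfl⟩) hy

/-- chains are independent over `R[G]` -/
theorem indep_over {G : Set F} {m : ℕ} {y : Fin m → F}
    (h : ∀ i, y i ∉ acl R (G ∪ y '' {i' | i' < i})) : AlgebraicIndependent (ovr R G) y :=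
  indep_of_chain fun i hi => h i (acl_over hi)

end Over

theorem indep_translate {ι R A : Type} [CommRing R] [CommRing A] [Algebra R A] {x : ι → A}
    (hx : AlgebraicIndependent R x) (r : ι → R) : AlgebraicIndependent R fun i => x i + algebraMap R A (r i) := by
  rw [algebraicIndependent_iff] at hx ⊢
  intro P hP
  have h1 : MvPolynomial.aeval x (MvPolynomial.aeval (fun i => MvPolynomial.X i + MvPolynomial.C (r i)) P :
      MvPolynomial ι R) = 0 := by
    rw [← AlgHom.comp_apply, MvPolynomial.comp_aeval, ← hP]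
    congr 2
    funext i
    rw [map_add, MvPolynomial.aeval_X, MvPolynomial.aeval_C]
  have h2 := hx _ h1
  have h3 : MvPolynomial.aeval (fun i => MvPolynomial.X i - MvPolynomial.C (r i))
      (MvPolynomial.aeval (fun i => MvPolynomial.X i + MvPolynomial.C (r i)) P : MvPolynomial ι R) = P := by
    rw [← AlgHom.comp_apply, MvPolynomial.comp_aeval]
    conv_rhs => rw [← MvPolynomial.aeval_X_left_apply P]
    congr 2
    funext i
    rw [map_add, MvPolynomial.aeval_X, MvPolynomial.aeval_C]
    show MvPolynomial.X i - MvPolynomial.C (r i) + MvPolynomial.C (r i) = _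
    ring
  rw [← h3, h2, map_zero]

section Box

variable {σ : Type} [Fintype σ] {δ : ℕ}

/-- exponents -/
noncomputable def tF (f : σ → Fin (δ + 1)) : σ →₀ ℕ := Finsupp.equivFunOnFinite.symm fun i => (f i : ℕ)

theorem tF_apply (f : σ → Fin (δ + 1)) (i : σ) : tF f i = f i := rfl

theorem tF_inj : Function.Injective (tF : (σ → Fin (δ + 1)) → (σ →₀ ℕ)) := by
  intro f g h
  funext i
  apply Fin.ext
  have := DFunLike.congr_fun h i
  exact this

theorem tF_surj (d : σ →₀ ℕ) (h : ∀ i, d i ≤ δ) : ∃ f : σ → Fin (δ + 1), tF f = d :=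
  ⟨fun i => ⟨d i, Nat.lt_succ_of_le (h i)⟩, by ext i; rfl⟩

theorem le_of_support {R : Type} [CommSemiring R] {P : MvPolynomial σ R} (hP : P.totalDegree ≤ δ) {d : σ →₀ ℕ}
    (hd : d ∈ P.support) (i : σ) : d i ≤ δ := by
  have h1 := MvPolynomial.le_totalDegree hd
  refine le_trans ?_ (h1.trans hP)
  rw [Finsupp.sum_fintype _ _ (fun _ => rfl)]
  exact Finset.single_le_sum (f := fun i => d i) (fun _ _ => Nat.zero_le _) (Finset.mem_univ i)

/-- the value of a polynomial in terms of all its coefficients -/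
theorem aeval_box [DecidableEq σ] {R A : Type} [CommRing R] [CommRing A] [Algebra R A] (P : MvPolynomial σ R)
    (hP : P.totalDegree ≤ δ) (x : σ → A) : MvPolynomial.aeval x P =
      ∑ f : σ → Fin (δ + 1), algebraMap R A (P.coeff (tF f)) * ∏ i, x i ^ (f i : ℕ) := by
  classical
  rw [MvPolynomial.aeval_def, MvPolynomial.eval₂_eq']
  have h0 : ∑ f : σ → Fin (δ + 1), algebraMap R A (P.coeff (tF f)) * ∏ i, x i ^ (f i : ℕ) =
      ∑ d ∈ Finset.univ.image (tF : (σ → Fin (δ + 1)) → (σ →₀ ℕ)), algebraMap R A (P.coeff d) * ∏ i, x i ^ d i := by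
    rw [Finset.sum_image fun f _ g _ h => tF_inj h]
    rfl
  rw [h0]
  refine Finset.sum_subset (fun d hd => ?_) fun d _ hd => ?_
  · obtain ⟨f, hf⟩ := tF_surj d (le_of_support hP hd)
    rw [Finset.mem_image]
    exact ⟨f, Finset.mem_univ _, hf⟩
  · rw [MvPolynomial.notMem_support_iff.1 hd, map_zero, zero_mul]

/-- a polynomial with given coefficients -/
noncomputable def mk [DecidableEq σ] {R : Type} [CommRing R] (c : (σ → Fin (δ + 1)) → R) : MvPolynomial σ R :=
  ∑ f : σ → Fin (δ + 1), MvPolynomial.monomial (tF f) (c f)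

theorem mk_coeff [DecidableEq σ] {R : Type} [CommRing R] (c : (σ → Fin (δ + 1)) → R) (f : σ → Fin (δ + 1)) :
    (mk c).coeff (tF f) = c f := by
  classical
  unfold mk
  rw [MvPolynomial.coeff_sum, Finset.sum_eq_single f]
  · rw [MvPolynomial.coeff_monomial, if_pos rfl]
  · intro g _ hg
    rw [MvPolynomial.coeff_monomial, if_neg fun h => hg (tF_inj h)]
  · intro h
    exact absurd (Finset.mem_univ _) h

theorem mk_coeff' [DecidableEq σ] {R : Type} [CommRing R] (c : (σ → Fin (δ + 1)) → R) (d : σ →₀ ℕ) :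
    (∃ f, tF f = d ∧ (mk c).coeff d = c f) ∨ (mk c).coeff d = 0 := by
  classical
  by_cases h : ∃ f : σ → Fin (δ + 1), tF f = d
  · obtain ⟨f, rfl⟩ := h
    exact Or.inl ⟨f, rfl, mk_coeff c f⟩
  · right
    unfold mk
    rw [MvPolynomial.coeff_sum]
    refine Finset.sum_eq_zero fun f _ => ?_
    rw [MvPolynomial.coeff_monomial, if_neg fun h' => h ⟨f, h'⟩]

theorem mk_aeval [DecidableEq σ] {R A : Type} [CommRing R] [CommRing A] [Algebra R A] (c : (σ → Fin (δ + 1)) → R) (x : σ → A) :
    MvPolynomial.aeval x (mk c) = ∑ f : σ → Fin (δ + 1), algebraMap R A (c f) * ∏ i, x i ^ (f i : ℕ) := by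
  unfold mk
  rw [map_sum]
  refine Finset.sum_congr rfl fun f _ => ?_
  rw [MvPolynomial.aeval_monomial, Finsupp.prod_fintype _ _ (fun _ => pow_zero _)]
  rfl

end Box

end Pool.Agent.Run7.h643.MS
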