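import Mathlib
import Pool.Agent.Run7.h643.MS.Alg

/-!
# Few exceptions: a family of elements, any distinct members of which become independent after a translation
-/

set_option autoImplicit false

namespace Pool.Agent.Run7.h643.MS

open Pool.Agent.R351.GF

theorem few_exceptions {F : Type} [Field F] (R : Subring F) {W : Type} (v : W → F) (ℓ : F) (G : Set F) (g : ℕ)
    (hG : G.encard ≤ g)
    (hW : ∀ (m : ℕ) (x : Fin m → W), Function.Injective x → AlgebraicIndependent R fun i => v (x i) - ℓ) :
    ∃ S : Finset W, S.card ≤ g + 1 ∧ ∀ (r : ℕ) (x : Fin r → W), Function.Injective x → (∀ i, x i ∉ S) →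
      AlgebraicIndependent (ovr R G) fun i => v (x i) := by
  classical
  set Dep : ℕ → Prop := fun n => ∃ B S : Finset W, Disjoint B S ∧ S.card = n ∧
    ∀ s ∈ S, v s ∈ acl R (G ∪ v '' (B : Set W)) with hDep
  have hbound : ∀ n, Dep n → n ≤ g + 1 := by
    rintro n ⟨B, S, hd, hn, hS⟩
    by_contra hcon
    rw [not_le] at hcon
    set x : Fin (B ∪ S).card → W := fun i => ((B ∪ S).equivFin.symm i : W) with hx
    have hxinj : Function.Injective x := Subtype.val_injective.comp (B ∪ S).equivFin.symm.injective
    have hind := hW _ x hxinj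
    have hcard : (B ∪ S).card = B.card + n := by rw [Finset.card_union_of_disjoint hd, hn]
    have henc : (G ∪ v '' (B : Set W) ∪ {ℓ}).encard < ((B ∪ S).card : ℕ∞) := by
      have h1 : (v '' (B : Set W)).encard ≤ (B.card : ℕ∞) := by
        refine (Set.encard_image_le _ _).trans ?_
        rw [Set.encard_coe_eq_coe_finsetCard]
      have h2 : (G ∪ v '' (B : Set W) ∪ {ℓ}).encard ≤ (g : ℕ∞) + B.card + 1 := by
        refine (Set.encard_union_le _ _).trans ?_
        rw [Set.encard_singleton]
        refine add_le_add_left ((Set.encard_union_le _ _).trans ?_) 1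
        exact add_le_add hG h1
      refine h2.trans_lt ?_
      rw [hcard]
      have h3 : g + B.card + 1 < B.card + n := by omega
      exact_mod_cast h3
    obtain ⟨i, hi⟩ := exists_notMem_acl hind henc
    apply hi
    refine acl_sub ?_ (subset_acl (Or.inr rfl))
    have h1 : x i ∈ B ∪ S := ((B ∪ S).equivFin.symm i).2
    rcases Finset.mem_union.1 h1 with h2 | h2
    · exact subset_acl (Or.inl (Or.inr ⟨x i, h2, rfl⟩))
    · exact acl_mono Set.subset_union_left (hS _ h2)
  have h0 : Dep 0 := ⟨∅, ∅, Finset.disjoint_empty_left _, rfl, fun s hs => absurd hs (Finset.notMem_empty s)⟩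
  obtain ⟨n, hn, hmax⟩ : ∃ n, Dep n ∧ ¬ Dep (n + 1) := by
    by_contra hcon
    push Not at hcon
    have hall : ∀ n, Dep n := fun n => by
      induction n with
      | zero => exact h0
      | succ n ih => exact hcon n ih
    have := hbound _ (hall (g + 2))
    omega
  obtain ⟨B, S, hd, hcard, hS⟩ := hn
  refine ⟨S, hcard ▸ hbound n ⟨B, S, hd, hcard, hS⟩, fun r x hinj hxS => ?_⟩
  apply indep_over
  intro i hi
  apply hmax
  set A : Finset W := (Finset.univ.filter (· < i)).image x with hA
  have hA1 : x i ∉ A := by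
    intro h
    rw [hA, Finset.mem_image] at h
    obtain ⟨i', hi', h2⟩ := h
    rw [Finset.mem_filter] at hi'
    rw [hinj h2] at hi'
    exact lt_irrefl _ hi'.2
  have hxi : v (x i) ∈ acl R (G ∪ v '' (((B ∪ A).erase (x i) : Finset W) : Set W)) := by
    refine acl_mono ?_ hi
    refine Set.union_subset_union_right _ ?_
    rintro _ ⟨i', hi', rfl⟩
    refine ⟨x i', ?_, rfl⟩
    rw [Finset.mem_coe, Finset.mem_erase]
    have h1 : x i' ∈ A := Finset.mem_image.2 ⟨i', Finset.mem_filter.2 ⟨Finset.mem_univ _, hi'⟩, rfl⟩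
    exact ⟨fun h => hA1 (h ▸ h1), Finset.mem_union_right _ h1⟩
  refine ⟨(B ∪ A).erase (x i), insert (x i) S, ?_, ?_, ?_⟩
  · rw [Finset.disjoint_left]
    intro w hw hw'
    rw [Finset.mem_erase, Finset.mem_union] at hw
    rcases Finset.mem_insert.1 hw' with h | h
    · exact hw.1 h
    · rcases hw.2 with h2 | h2
      · exact Finset.disjoint_left.1 hd h2 h
      · rw [hA, Finset.mem_image] at h2
        obtain ⟨i', -, h3⟩ := h2
        exact hxS i' (h3 ▸ h)
  · rw [Finset.card_insert_of_notMem (hxS i), hcard]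
  · intro s hs
    rcases Finset.mem_insert.1 hs with h | h
    · rw [h]
      exact hxi
    · refine acl_of ?_ (hS s h)
      rintro z (hz | ⟨b, hb, rfl⟩)
      · exact subset_acl (Or.inl hz)
      · by_cases h2 : b = x i
        · rw [h2]
          exact hxi
        · exact subset_acl (Or.inr ⟨b, by
            rw [Finset.mem_coe, Finset.mem_erase]
            exact ⟨h2, Finset.mem_union_left _ hb⟩, rfl⟩)

end Pool.Agent.Run7.h643.MS
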