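import Mathlib
import Pool.Agent.Run7.h643.MS.Alg

/-!
# From a small value of a polynomial to small values of its coefficients
-/

set_option autoImplicit false

namespace Pool.Agent.Run7.h643.MS

open Filter Pool.Agent.R351.GF

/-- There are logarithms `l i` of the numbers `n i` of absolute value at most `H`, and a nonzero polynomial with integer
coefficients, of degree at most `δ` and height at most `H`, whose value at `l` is smaller than `(H + 2) ^ (- C)`. -/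
def BadT {σ : Type} (δ C H : ℕ) (n : σ → ℕ) : Prop :=
  ∃ l : σ → ℂ, (∀ i, Complex.exp (l i) = n i) ∧ (∀ i, ‖l i‖ ≤ H) ∧
    ∃ P : MvPolynomial σ ℤ, P ≠ 0 ∧ P.totalDegree ≤ δ ∧ (∀ s, |P.coeff s| ≤ H) ∧
      ‖MvPolynomial.aeval l P‖ * ((H : ℝ) + 2) ^ C < 1

variable (U : Ultrafilter ℕ) (H : ℕ → ℕ)

/-- evaluation at `j` -/
noncomputable def ej (j : ℕ) : Os U H →+* ℂ := (Pi.evalRingHom (fun _ : ℕ => ℂ) j).comp (Os U H).subtype

theorem ej_apply (j : ℕ) (x : Os U H) : (x : ℕ → ℂ) j = ej U H j x := rfl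

/-- the data of a bad tuple -/
theorem data {σ : Type} {δ : ℕ} (nn : ℕ → σ → ℕ) (C : ℕ → ℕ) (j : ℕ) :
    ∃ (l : σ → ℂ) (P : MvPolynomial σ ℤ) (b : σ → ℤ),
      (∀ s, |P.coeff s| ≤ H j) ∧ (∀ i, |(b i : ℝ)| ≤ gr H j) ∧
      ((∀ i, 0 < nn j i ∧ nn j i ≤ H j) → BadT δ (C j) (H j) (nn j) →
        P ≠ 0 ∧ P.totalDegree ≤ δ ∧ ‖MvPolynomial.aeval l P‖ * gr H j ^ C j < 1 ∧ (∀ i, Complex.exp (l i) = nn j i) ∧
        (∀ i, ‖l i‖ ≤ H j) ∧ ∀ i, l i = (Real.log (nn j i) : ℂ) + b i * (2 * Real.pi * Complex.I)) := by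
  by_cases h : (∀ i, 0 < nn j i ∧ nn j i ≤ H j) ∧ BadT δ (C j) (H j) (nn j)
  · obtain ⟨hn, l, hl, hlH, P, hP0, hPd, hPH, hPv⟩ := h
    have hb : ∀ i, ∃ b : ℤ, l i = (Real.log (nn j i) : ℂ) + b * (2 * Real.pi * Complex.I) := by
      intro i
      have h3 : Complex.exp (l i) = Complex.exp (Real.log (nn j i) : ℂ) := by
        rw [hl i, ← Complex.ofReal_exp, Real.exp_log (by exact_mod_cast (hn i).1)]
        push_cast
        rfl
      exact Complex.exp_eq_exp_iff_exists_int.1 h3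
    choose b hb using hb
    refine ⟨l, P, b, hPH, fun i => ?_, fun _ _ => ⟨hP0, hPd, hPv, hl, hlH, hb⟩⟩
    have h4 : ‖(b i : ℂ) * (2 * Real.pi * Complex.I)‖ ≤ 2 * H j := by
      have h5 : (b i : ℂ) * (2 * Real.pi * Complex.I) = l i - (Real.log (nn j i) : ℂ) := by
        rw [hb i]; ring
      rw [h5]
      refine (norm_sub_le _ _).trans ?_
      have h6 : ‖(Real.log (nn j i) : ℂ)‖ ≤ H j := by
        rw [Complex.norm_real, Real.norm_eq_abs, abs_of_nonneg (Real.log_natCast_nonneg _)]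
        have h7 : (0 : ℝ) < nn j i := by exact_mod_cast (hn i).1
        have h8 := Real.log_le_sub_one_of_pos h7
        have h9 : (nn j i : ℝ) ≤ H j := by exact_mod_cast (hn i).2
        linarith
      have h7 := hlH i
      linarith
    rw [norm_mul, Complex.norm_intCast] at h4
    have h1 : ‖(2 * Real.pi * Complex.I : ℂ)‖ = 2 * Real.pi := by
      rw [norm_mul, norm_mul, Complex.norm_I, mul_one, Complex.norm_real, Real.norm_eq_abs,
        abs_of_pos Real.pi_pos]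
      norm_num
    rw [h1] at h4
    have h2 := Real.pi_gt_three
    have h10 : (0 : ℝ) ≤ |(b i : ℝ)| := abs_nonneg _
    have h11 : (0 : ℝ) ≤ H j := Nat.cast_nonneg _
    unfold gr
    nlinarith
  · refine ⟨0, 0, 0, fun s => ?_, fun i => ?_, fun h1 h2 => absurd ⟨h1, h2⟩ h⟩
    · rw [MvPolynomial.coeff_zero, abs_zero]; exact Int.natCast_nonneg _
    · simp only [Pi.zero_apply, Int.cast_zero, abs_zero]
      exact (gr_pos H j).le

/-- the class of `2πi` -/
noncomputable abbrev tp : Fl U H := Ideal.Quotient.mk (ms U H) (tpi U H)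

/-- the ring of the coefficients -/
noncomputable abbrev Rc {κ : Type} (c : ℕ → κ → ℕ) : Subring (Fl U H) :=
  ovr (Zs U H) ({tp U H} ∪ Set.range fun i => lc U H (fun j => c j i))

/-- **From a small value to small coefficients** -/
theorem coeff_small {ρ κ : Type} [Fintype ρ] [Fintype κ] [DecidableEq ρ] [DecidableEq κ] {δ : ℕ}
    (n : ℕ → ρ → ℕ) (c : ℕ → κ → ℕ) (C : ℕ → ℕ) (hC : Tendsto C U atTop)
    (hn : ∀ᶠ j in (U : Filter ℕ), ∀ i, 0 < n j i ∧ n j i ≤ H j)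
    (hc : ∀ᶠ j in (U : Filter ℕ), ∀ i, 0 < c j i ∧ c j i ≤ H j)
    (hbad : ∀ᶠ j in (U : Filter ℕ), BadT δ (C j) (H j) (Sum.elim (n j) (c j)))
    (hind : AlgebraicIndependent (Rc U H c) fun i => lc U H (fun j => n j i)) (C₀ : ℕ) :
    ∀ᶠ j in (U : Filter ℕ), BadT δ C₀ (H j) (c j) := by
  classical
  set nn : ℕ → ρ ⊕ κ → ℕ := fun j => Sum.elim (n j) (c j) with hnn
  choose l P b hPH hbH hprop using fun j => data (δ := δ) H nn C j
  have hp : ∀ᶠ j in (U : Filter ℕ), (P j ≠ 0 ∧ (P j).totalDegree ≤ δ ∧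
      ‖MvPolynomial.aeval (l j) (P j)‖ * gr H j ^ C j < 1 ∧ (∀ i, Complex.exp (l j i) = nn j i) ∧
      (∀ i, ‖l j i‖ ≤ H j) ∧ ∀ i, l j i = (Real.log (nn j i) : ℂ) + b j i * (2 * Real.pi * Complex.I)) ∧
      ∀ i, nn j i ≤ H j := by
    filter_upwards [hn, hc, hbad] with j h1 h2 h3
    have h4 : ∀ i, 0 < nn j i ∧ nn j i ≤ H j := by
      rintro (i | i)
      · exact h1 i
      · exact h2 i
    exact ⟨hprop j h4 h3, fun i => (h4 i).2⟩
  have hbIZ : ∀ i, (fun j => b j i) ∈ IZ U H := fun i => (mem_IZ U H).2 ⟨1, Eventually.of_forall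
    fun j => by rw [pow_one]; exact hbH j i⟩
  have hPIZ : ∀ f : ρ ⊕ κ → Fin (δ + 1), (fun j => (P j).coeff (tF f)) ∈ IZ U H := fun f => (mem_IZ U H).2
    ⟨1, Eventually.of_forall fun j => by
      rw [pow_one]
      have h1 : |(((P j).coeff (tF f) : ℤ) : ℝ)| ≤ H j := by exact_mod_cast hPH j (tF f)
      unfold gr
      linarith⟩
  set a : (ρ ⊕ κ → Fin (δ + 1)) → IZ U H := fun f => ⟨_, hPIZ f⟩ with ha
  set z : ρ ⊕ κ → Os U H := fun i => lo U H (fun j => nn j i) + izo U H ⟨_, hbIZ i⟩ * tpi U H with hz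
  set Z : ρ ⊕ κ → Fl U H := fun i => Ideal.Quotient.mk (ms U H) (z i) with hZ
  have hZ1 : ∀ i, Z i = lc U H (fun j => nn j i) + psi U H ⟨_, hbIZ i⟩ * tp U H := by
    intro i
    rw [hZ]
    simp only
    rw [hz, map_add, map_mul]
    rfl
  have hzj : ∀ᶠ j in (U : Filter ℕ), ∀ i, ej U H j (z i) = l j i := by
    filter_upwards [hp] with j hj i
    rw [hj.1.2.2.2.2.2 i]
    show (lo U H (fun j => nn j i) : ℕ → ℂ) j + ((b j i : ℤ) : ℂ) * (2 * Real.pi * Complex.I) = _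
    rw [lo_apply U H (hj.2 i)]
  have haj : ∀ (f : ρ ⊕ κ → Fin (δ + 1)) (j : ℕ), ej U H j (izo U H (a f)) = (((P j).coeff (tF f) : ℤ) : ℂ) :=
    fun f j => rfl
  -- the relation
  have hrel : ∑ f : ρ ⊕ κ → Fin (δ + 1), psi U H (a f) * ∏ i, Z i ^ (f i : ℕ) = 0 := by
    have h1 : (Ideal.Quotient.mk (ms U H) (∑ f : ρ ⊕ κ → Fin (δ + 1), izo U H (a f) * ∏ i, z i ^ (f i : ℕ)) :
        Fl U H) = 0 := by
      rw [Ideal.Quotient.eq_zero_iff_mem, mem_ms]
      intro D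
      filter_upwards [hp, hzj, hC.eventually_ge_atTop D] with j h1 h2 h3
      have h4 : ((∑ f : ρ ⊕ κ → Fin (δ + 1), izo U H (a f) * ∏ i, z i ^ (f i : ℕ) : Os U H) : ℕ → ℂ) j =
          MvPolynomial.aeval (l j) (P j) := by
        rw [ej_apply, map_sum, aeval_box (P j) h1.1.2.1]
        refine Finset.sum_congr rfl fun f _ => ?_
        rw [map_mul, map_prod, haj]
        congr 1
        refine Finset.prod_congr rfl fun i _ => ?_
        rw [map_pow, h2 i]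
      rw [h4]
      refine le_trans ?_ h1.1.2.2.1.le
      exact mul_le_mul_of_nonneg_left (pow_le_pow_right₀ (gr_one H j) h3) (norm_nonneg _)
    rw [map_sum] at h1
    rw [← h1]
    refine Finset.sum_congr rfl fun f _ => ?_
    rw [map_mul, map_prod]
    congr 1
  -- independence
  have hgen : tp U H ∈ Rc U H c := mem_over_of_gen (Or.inl rfl)
  have hpsi : ∀ x : IZ U H, psi U H x ∈ Rc U H c := fun x => mem_over_of_mem ⟨x, rfl⟩
  have hZc : ∀ i : κ, Z (Sum.inr i) ∈ Rc U H c := by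
    intro i
    rw [hZ1]
    exact add_mem (mem_over_of_gen (Or.inr ⟨i, rfl⟩)) (mul_mem (hpsi _) hgen)
  have hind' : AlgebraicIndependent (Rc U H c) fun i : ρ => Z (Sum.inl i) := by
    have h1 := indep_translate hind fun i : ρ => (⟨psi U H ⟨_, hbIZ (Sum.inl i)⟩ * tp U H,
      mul_mem (hpsi _) hgen⟩ : Rc U H c)
    have h2 : (fun i : ρ => Z (Sum.inl i)) = fun i : ρ => lc U H (fun j => n j i) +
        algebraMap (Rc U H c) (Fl U H) ⟨psi U H ⟨_, hbIZ (Sum.inl i)⟩ * tp U H, mul_mem (hpsi _) hgen⟩ := by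
      funext i
      exact hZ1 (Sum.inl i)
    rw [h2]
    exact h1
  -- the coefficients
  set r : (ρ → Fin (δ + 1)) → Fl U H := fun α => ∑ γ : κ → Fin (δ + 1),
    psi U H (a (Sum.elim α γ)) * ∏ i, Z (Sum.inr i) ^ (γ i : ℕ) with hr
  have hrm : ∀ α, r α ∈ Rc U H c := fun α => sum_mem fun γ _ => mul_mem (hpsi _)
    (prod_mem fun i _ => pow_mem (hZc i) _)
  have hsplit : ∑ α : ρ → Fin (δ + 1), r α * ∏ i, Z (Sum.inl i) ^ (α i : ℕ) = 0 := by
    rw [← hrel, ← (Equiv.sumArrowEquivProdArrow ρ κ (Fin (δ + 1))).symm.sum_comp, Fintype.sum_prod_type]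
    refine Finset.sum_congr rfl fun α _ => ?_
    rw [hr]
    simp only
    rw [Finset.sum_mul]
    refine Finset.sum_congr rfl fun γ _ => ?_
    rw [Fintype.prod_sum_type]
    show psi U H (a (Sum.elim α γ)) * (∏ i, Z (Sum.inr i) ^ (γ i : ℕ)) * ∏ i, Z (Sum.inl i) ^ (α i : ℕ) =
      psi U H (a (Sum.elim α γ)) * ((∏ i, Z (Sum.inl i) ^ (α i : ℕ)) * ∏ i, Z (Sum.inr i) ^ (γ i : ℕ))
    ring
  have hr0 : ∀ α, r α = 0 := by
    rw [algebraicIndependent_iff] at hind'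
    have h1 := hind' (mk fun α => (⟨r α, hrm α⟩ : Rc U H c)) (by
      rw [mk_aeval]
      exact hsplit)
    intro α
    have h2 := mk_coeff (fun α => (⟨r α, hrm α⟩ : Rc U H c)) α
    rw [h1, MvPolynomial.coeff_zero] at h2
    exact (congrArg Subtype.val h2).symm
  -- back to the sequences
  have hsm : ∀ᶠ j in (U : Filter ℕ), ∀ α : ρ → Fin (δ + 1),
      ‖∑ γ : κ → Fin (δ + 1), (((P j).coeff (tF (Sum.elim α γ)) : ℤ) : ℂ) * ∏ i, l j (Sum.inr i) ^ (γ i : ℕ)‖ *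
        gr H j ^ (C₀ + 1) ≤ 1 := by
    rw [Filter.eventually_all]
    intro α
    have h1 : (Ideal.Quotient.mk (ms U H) (∑ γ : κ → Fin (δ + 1), izo U H (a (Sum.elim α γ)) *
        ∏ i, z (Sum.inr i) ^ (γ i : ℕ)) : Fl U H) = 0 := by
      rw [← hr0 α, map_sum]
      refine Finset.sum_congr rfl fun f _ => ?_
      rw [map_mul, map_prod]
      congr 1
    rw [Ideal.Quotient.eq_zero_iff_mem, mem_ms] at h1
    filter_upwards [h1 (C₀ + 1), hzj] with j h2 h3
    rw [ej_apply, map_sum] at h2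
    have h4 : ∑ γ : κ → Fin (δ + 1), ej U H j (izo U H (a (Sum.elim α γ)) * ∏ i, z (Sum.inr i) ^ (γ i : ℕ)) =
        ∑ γ : κ → Fin (δ + 1), (((P j).coeff (tF (Sum.elim α γ)) : ℤ) : ℂ) * ∏ i, l j (Sum.inr i) ^ (γ i : ℕ) := by
      refine Finset.sum_congr rfl fun γ _ => ?_
      rw [map_mul, map_prod, haj]
      congr 1
      refine Finset.prod_congr rfl fun i _ => ?_
      rw [map_pow, h3]
    rw [h4] at h2
    exact h2
  filter_upwards [hp, hsm] with j h1 h2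
  obtain ⟨⟨hP0, hPd, -, hexp, hlH, -⟩, -⟩ := h1
  obtain ⟨d, hd⟩ := MvPolynomial.ne_zero_iff.1 hP0
  obtain ⟨f, hf⟩ := tF_surj d (le_of_support hPd (MvPolynomial.mem_support_iff.2 hd))
  set α : ρ → Fin (δ + 1) := fun i => f (Sum.inl i) with hα
  set γ₀ : κ → Fin (δ + 1) := fun i => f (Sum.inr i) with hγ₀
  have hfe : Sum.elim α γ₀ = f := by
    funext i
    rcases i with i | i <;> rfl
  refine ⟨fun i => l j (Sum.inr i), fun i => hexp (Sum.inr i), fun i => hlH (Sum.inr i),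
    mk fun γ => (P j).coeff (tF (Sum.elim α γ)), ?_, ?_, ?_, ?_⟩
  · intro h
    have h3 := mk_coeff (fun γ : κ → Fin (δ + 1) => (P j).coeff (tF (Sum.elim α γ))) γ₀
    rw [h, MvPolynomial.coeff_zero, hfe, hf] at h3
    exact hd h3.symm
  · rw [MvPolynomial.totalDegree]
    refine Finset.sup_le fun d' hd' => ?_
    rcases mk_coeff' (fun γ : κ → Fin (δ + 1) => (P j).coeff (tF (Sum.elim α γ))) d' with ⟨γ, hγ, h3⟩ | h3
    · rw [MvPolynomial.mem_support_iff, h3] at hd'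
      have h4 := (MvPolynomial.le_totalDegree (MvPolynomial.mem_support_iff.2 hd')).trans hPd
      refine le_trans ?_ h4
      rw [Finsupp.sum_fintype _ _ (fun _ => rfl), Finsupp.sum_fintype _ _ (fun _ => rfl), Fintype.sum_sum_type, ← hγ]
      exact Nat.le_add_left _ _
    · exact absurd h3 (MvPolynomial.mem_support_iff.1 hd')
  · intro s
    rcases mk_coeff' (fun γ : κ → Fin (δ + 1) => (P j).coeff (tF (Sum.elim α γ))) s with ⟨γ, hγ, h3⟩ | h3
    · rw [h3]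
      exact hPH j _
    · rw [h3, abs_zero]
      exact Int.natCast_nonneg _
  · rw [mk_aeval]
    have h3 := h2 α
    have h4 := gr_two H j
    have h5 : 0 ≤ ‖∑ γ : κ → Fin (δ + 1), (((P j).coeff (tF (Sum.elim α γ)) : ℤ) : ℂ) * ∏ i, l j (Sum.inr i) ^ (γ i : ℕ)‖ *
        gr H j ^ C₀ := mul_nonneg (norm_nonneg _) (pow_nonneg (gr_pos H j).le _)
    rw [pow_succ, ← mul_assoc] at h3
    have h6 : ‖∑ γ : κ → Fin (δ + 1), (((P j).coeff (tF (Sum.elim α γ)) : ℤ) : ℂ) * ∏ i, l j (Sum.inr i) ^ (γ i : ℕ)‖ *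
        gr H j ^ C₀ < 1 := by nlinarith
    exact h6

end Pool.Agent.Run7.h643.MS
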