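import Mathlib
import Pool.Agent.Run7.h643.MS.Small
import Pool.Agent.Run7.h643.MS.Few

/-!
# One window: few exceptions for the measure of algebraic independence, relative to given integers
-/

set_option autoImplicit false

namespace Pool.Agent.Run7.h643.MS

open Filter Pool.Agent.R351.GF

section Lc

variable (U : Ultrafilter ℕ) (H : ℕ → ℕ)

theorem lc_congr {a b : ℕ → ℕ} (h : ∀ᶠ j in (U : Filter ℕ), a j = b j) : lc U H a = lc U H b := by
  unfold lc
  rw [Ideal.Quotient.eq, mem_ms]
  intro D
  filter_upwards [h] with j hj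
  have h1 : ((lo U H a - lo U H b : Os U H) : ℕ → ℂ) j = 0 := by
    show (lo U H a : ℕ → ℂ) j - (lo U H b : ℕ → ℂ) j = 0
    unfold lo
    simp only [hj, sub_self]
  rw [h1, norm_zero, zero_mul]
  exact zero_le_one

end Lc

/-- **One window.** If the logarithms of the integers `c i` satisfy the measure with the constant `C₀` at the height `H`
then, up to `card κ + 2` exceptional numbers, the logarithms of `r` numbers of the window and of the `c i` satisfy it with
a constant `C`. -/
theorem wstep (κ : Type) [Fintype κ] [DecidableEq κ] (r δ C₀ : ℕ) : ∃ C : ℕ, ∀ N h H : ℕ, (h + 2) ^ C ≤ N → N + h ≤ H →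
    ∀ c : κ → ℕ, (∀ i, 0 < c i ∧ c i ≤ H) → ¬ BadT δ C₀ H c →
      ∃ S : Finset ℕ, S.card ≤ Fintype.card κ + 2 ∧ ∀ β : Fin r → ℕ, Function.Injective β →
        (∀ i, 0 < β i ∧ β i ≤ h ∧ β i ∉ S) → ¬ BadT δ C H (Sum.elim (fun i => N + β i) c) := by
  classical
  by_contra hcon
  push Not at hcon
  choose N h H hN hNH c hc hcb hS using hcon
  obtain ⟨U, hU⟩ : ∃ U : Ultrafilter ℕ, U = hyperfilter ℕ := ⟨_, rfl⟩
  have htop : (U : Filter ℕ) ≤ atTop := by
    rw [hU, ← Nat.cofinite_eq_atTop]
    exact hyperfilter_le_cofinite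
  -- the sequences in the windows
  obtain ⟨W, rp, hrp1, hrp2, hrp3⟩ : ∃ (W : Type) (rp : W → ℕ → ℕ),
      (∀ w, ∀ᶠ j in (U : Filter ℕ), 0 < rp w j ∧ rp w j ≤ h j) ∧
      (∀ w w', (∀ᶠ j in (U : Filter ℕ), rp w j = rp w' j) → w = w') ∧
      ∀ b : ℕ → ℕ, (∀ᶠ j in (U : Filter ℕ), 0 < b j ∧ b j ≤ h j) → ∃ w, ∀ᶠ j in (U : Filter ℕ), rp w j = b j := by
    have hout : ∀ x : (U : Filter ℕ).Germ ℕ, ∃ f : ℕ → ℕ, (f : (U : Filter ℕ).Germ ℕ) = x := fun x =>
      Quotient.exists_rep x
    choose f hf using hout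
    refine ⟨{x : (U : Filter ℕ).Germ ℕ // ∀ᶠ j in (U : Filter ℕ), 0 < f x j ∧ f x j ≤ h j}, fun w => f w.1,
      fun w => w.2, fun w w' hw => ?_, fun b hb => ?_⟩
    · apply Subtype.ext
      rw [← hf w.1, ← hf w'.1]
      exact Germ.coe_eq.2 hw
    · have h1 : ∀ᶠ j in (U : Filter ℕ), f (b : (U : Filter ℕ).Germ ℕ) j = b j := Germ.coe_eq.1 (hf _)
      exact ⟨⟨(b : (U : Filter ℕ).Germ ℕ), by
        filter_upwards [h1, hb] with j h2 h3
        rw [h2]
        exact h3⟩, h1⟩
  set v : W → Fl U H := fun w => lc U H (fun j => N j + rp w j) with hv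
  have hW : ∀ (m : ℕ) (x : Fin m → W), Function.Injective x →
      AlgebraicIndependent (Zs U H) fun i => v (x i) - lc U H N := by
    intro m x hx
    refine win_indep U H (fun i j => N j + rp (x i) j) N h (fun j i => rp (x i) j) ?_ ?_ ?_ ?_ ?_
    · exact Eventually.of_forall fun j => (Nat.le_add_right _ _).trans (hNH j)
    · have h1 : ∀ i i' : Fin m, ∀ᶠ j in (U : Filter ℕ), rp (x i) j = rp (x i') j → i = i' := by
        intro i i'
        by_cases h2 : i = i'
        · exact Eventually.of_forall fun j _ => h2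
        · have h3 : ¬ ∀ᶠ j in (U : Filter ℕ), rp (x i) j = rp (x i') j := fun h3 => h2 (hx (hrp2 _ _ h3))
          rw [← Ultrafilter.eventually_not] at h3
          filter_upwards [h3] with j h4 h5
          exact absurd h5 h4
      have h2 := Filter.eventually_all.2 fun i => Filter.eventually_all.2 (h1 i)
      filter_upwards [h2] with j h3 i i' h4
      exact h3 i i' h4
    · exact Filter.eventually_all.2 fun i => hrp1 (x i)
    · have h2 := Filter.eventually_all.2 fun i => hrp1 (x i)
      filter_upwards [h2] with j h3 i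
      refine ⟨rfl, ?_⟩
      have h4 := (h3 i).2
      have h5 := hNH j
      omega
    · intro E
      filter_upwards [htop (eventually_ge_atTop E)] with j hj
      exact (Nat.pow_le_pow_right (by omega) hj).trans (hN j)
  set G : Set (Fl U H) := {tp U H} ∪ Set.range fun i => lc U H (fun j => c j i) with hG
  have hGcard : G.encard ≤ ((Fintype.card κ + 1 : ℕ) : ℕ∞) := by
    refine (Set.encard_union_le _ _).trans ?_
    rw [Set.encard_singleton, ← Set.image_univ]
    have h1 : ((fun i => lc U H (fun j => c j i)) '' Set.univ).encard ≤ (Fintype.card κ : ℕ∞) := by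
      refine (Set.encard_image_le _ _).trans ?_
      rw [Set.encard_univ, ENat.card_eq_coe_fintype_card]
    calc (1 : ℕ∞) + _ ≤ 1 + (Fintype.card κ : ℕ∞) := add_le_add_right h1 1
      _ = _ := by push_cast; rw [add_comm]
  obtain ⟨S, hScard, hSind⟩ := few_exceptions (Zs U H) v (lc U H N) G _ hGcard hW
  choose β hβinj hβ hβbad using fun j => hS j (S.image fun w => rp w j)
    (Finset.card_image_le.trans hScard)
  choose x hx using fun l : Fin r => hrp3 (fun j => β j l) (Eventually.of_forall fun j => ⟨(hβ j l).1, (hβ j l).2.1⟩)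
  have hxinj : Function.Injective x := by
    intro l l' hl
    have h1 := hx l
    rw [hl] at h1
    obtain ⟨j, h2, h3⟩ := (h1.and (hx l')).exists
    exact hβinj j (h2.symm.trans h3)
  have hxS : ∀ l, x l ∉ S := by
    intro l hl
    obtain ⟨j, h2⟩ := (hx l).exists
    exact (hβ j l).2.2 (Finset.mem_image.2 ⟨x l, hl, h2⟩)
  have hind := hSind r x hxinj hxS
  have hveq : (fun i => v (x i)) = fun i => lc U H (fun j => N j + β j i) := by
    funext i
    apply lc_congr
    filter_upwards [hx i] with j hj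
    rw [hj]
  rw [hveq] at hind
  have hfin := coeff_small U H (δ := δ) (fun j i => N j + β j i) c (fun j => j) (tendsto_id.mono_left htop)
    (Eventually.of_forall fun j i => ⟨by
      have := (hβ j i).1
      omega, by
      have h1 := (hβ j i).2.1
      have h2 := hNH j
      omega⟩) (Eventually.of_forall hc) (Eventually.of_forall hβbad) hind C₀
  obtain ⟨j, hj⟩ := hfin.exists
  exact hcb j hj

end Pool.Agent.Run7.h643.MS
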