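import Mathlib
import Pool.Agent.Run7.h643.MS.Step

/-!
# Several windows: the number of bad tuples of runs
-/

set_option autoImplicit false

namespace Pool.Agent.Run7.h643.MS

open Finset

theorem BadT.mono {σ : Type} {δ C C' H : ℕ} {n : σ → ℕ} (h : BadT δ C H n) (hC : C' ≤ C) : BadT δ C' H n := by
  obtain ⟨l, h1, h2, P, h3, h4, h5, h6⟩ := h
  refine ⟨l, h1, h2, P, h3, h4, h5, lt_of_le_of_lt ?_ h6⟩
  refine mul_le_mul_of_nonneg_left (pow_le_pow_right₀ ?_ hC) (norm_nonneg _)
  have : (0 : ℝ) ≤ H := Nat.cast_nonneg _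
  linarith

theorem BadT.comp {σ τ : Type} {δ C H : ℕ} {n : τ → ℕ} (h : BadT δ C H n) (e : σ ≃ τ) : BadT δ C H (n ∘ e) := by
  obtain ⟨l, h1, h2, P, h3, h4, h5, h6⟩ := h
  refine ⟨l ∘ e, fun i => h1 (e i), fun i => h2 (e i), MvPolynomial.rename e.symm P, ?_, ?_, ?_, ?_⟩
  · intro h
    apply h3
    apply MvPolynomial.rename_injective e.symm e.symm.injective
    rw [h, map_zero]
  · exact (MvPolynomial.totalDegree_rename_le _ _).trans h4
  · intro s
    have h7 : s = Finsupp.mapDomain e.symm (Finsupp.mapDomain e s) := by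
      rw [← Finsupp.mapDomain_comp, Equiv.symm_comp_self, Finsupp.mapDomain_id]
    rw [h7, MvPolynomial.coeff_rename_mapDomain _ e.symm.injective]
    exact h5 _
  · rw [MvPolynomial.aeval_rename, Function.comp_assoc, Equiv.self_comp_symm, Function.comp_id]
    exact h6

theorem not_bad_empty {σ : Type} [IsEmpty σ] {δ H : ℕ} (n : σ → ℕ) : ¬ BadT δ 0 H n := by
  rintro ⟨l, -, -, P, h3, -, -, h6⟩
  rw [MvPolynomial.eq_C_of_isEmpty P] at h3 h6
  rw [MvPolynomial.aeval_C, pow_zero, mul_one] at h6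
  have h7 : MvPolynomial.coeff 0 P ≠ 0 := fun h => h3 (by rw [h, map_zero])
  have h8 : (1 : ℝ) ≤ ‖((MvPolynomial.coeff 0 P : ℤ) : ℂ)‖ := by
    rw [Complex.norm_intCast]
    exact_mod_cast Int.one_le_abs h7
  exact absurd h6 (not_lt.2 h8)

/-- the indices -/
def sh (t r : ℕ) (κ : Type) : Fin r ⊕ ((Fin t × Fin r) ⊕ κ) → (Fin (t + 1) × Fin r) ⊕ κ :=
  Sum.elim (fun i => Sum.inl (Fin.last t, i)) (Sum.elim (fun x => Sum.inl (x.1.castSucc, x.2)) Sum.inr)

theorem sh_bij (t r : ℕ) (κ : Type) : Function.Bijective (sh t r κ) := by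
  constructor
  · rintro (i | ⟨a, i⟩ | z) (i' | ⟨a', i'⟩ | z') h
    · have h1 : (Fin.last t, i) = (Fin.last t, i') := Sum.inl.inj h
      have h2 : i = i' := (Prod.mk.inj h1).2
      rw [h2]
    · have h1 : (Fin.last t, i) = (a'.castSucc, i') := Sum.inl.inj h
      exact absurd (Prod.mk.inj h1).1.symm (Fin.castSucc_lt_last a').ne
    · exact absurd h Sum.inl_ne_inr
    · have h1 : (a.castSucc, i) = (Fin.last t, i') := Sum.inl.inj h
      exact absurd (Prod.mk.inj h1).1 (Fin.castSucc_lt_last a).ne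
    · have h1 : (a.castSucc, i) = (a'.castSucc, i') := Sum.inl.inj h
      have h2 : a = a' := Fin.castSucc_injective _ (Prod.mk.inj h1).1
      have h3 : i = i' := (Prod.mk.inj h1).2
      rw [h2, h3]
    · exact absurd h Sum.inl_ne_inr
    · exact absurd h Sum.inr_ne_inl
    · exact absurd h Sum.inr_ne_inl
    · have h1 : z = z' := Sum.inr.inj h
      rw [h1]
  · rintro (⟨a, i⟩ | z)
    · refine Fin.lastCases ?_ (fun a => ?_) a
      · exact ⟨Sum.inl i, rfl⟩
      · exact ⟨Sum.inr (Sum.inl (a, i)), rfl⟩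
    · exact ⟨Sum.inr (Sum.inr z), rfl⟩

open Classical in
/-- the bad tuples of runs -/
noncomputable def badQ {t r K : ℕ} {κ : Type} (δ C H : ℕ) (N : Fin t → ℕ) (R : Fin t → Fin K → Fin r → ℕ) (c : κ → ℕ) :
    Finset (Fin t → Fin K) :=
  Finset.univ.filter fun q => BadT δ C H (Sum.elim (fun x : Fin t × Fin r => N x.1 + R x.1 (q x.1) x.2) c)

theorem hit_count {K r : ℕ} (R : Fin K → Fin r → ℕ) (hd : ∀ q q' i i', R q i = R q' i' → q = q') (S : Finset ℕ)
    (B : Finset (Fin K)) (hB : ∀ q ∈ B, ∃ i, R q i ∈ S) : B.card ≤ S.card := by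
  classical
  rcases B.eq_empty_or_nonempty with rfl | ⟨q0, hq0⟩
  · exact Nat.zero_le _
  obtain ⟨i0, -⟩ := hB q0 hq0
  have : Nonempty (Fin r) := ⟨i0⟩
  choose! f hf using hB
  refine Finset.card_le_card_of_injOn (fun q => R q (f q)) (fun q hq => hf q hq) fun q _ q' _ h => ?_
  exact hd _ _ _ _ h

/-- **The number of bad tuples of runs.** -/
theorem bad_count (κ : Type) [Fintype κ] [DecidableEq κ] (r δ C₀ : ℕ) : ∀ t : ℕ, ∃ C : ℕ, ∀ (K h : ℕ) (N : Fin t → ℕ)
    (R : Fin t → Fin K → Fin r → ℕ),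
    (∀ a q, Function.Injective (R a q)) → (∀ a q i, 0 < R a q i ∧ R a q i ≤ h) →
    (∀ a q q' i i', R a q i = R a q' i' → q = q') → (∀ a, (h + 2) ^ C ≤ N a) → ∀ H : ℕ, (∀ a, N a + h ≤ H) →
    ∀ c : κ → ℕ, (∀ i, 0 < c i ∧ c i ≤ H) → ¬ BadT δ C₀ H c →
    (badQ δ C H N R c).card * K ≤ t * (r * t + Fintype.card κ + 2) * K ^ t := by
  classical
  intro t
  induction t with
  | zero =>
    refine ⟨C₀, fun K h N R _ _ _ _ H _ c _ hc => ?_⟩
    have h1 : badQ δ C₀ H N R c = ∅ := by
      unfold badQ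
      rw [Finset.filter_eq_empty_iff]
      intro q _ hbad
      exact hc (hbad.comp (Equiv.emptySum (Fin 0 × Fin r) κ).symm)
    rw [h1, Finset.card_empty, Nat.zero_mul]
    exact Nat.zero_le _
  | succ t ih =>
    obtain ⟨C₁, hC₁⟩ := ih
    obtain ⟨C₂, hC₂⟩ := wstep ((Fin t × Fin r) ⊕ κ) r δ C₁
    refine ⟨max C₁ C₂, fun K h N R hinj hR hd hN H hH c hc hcb => ?_⟩
    have hN₁ : ∀ a, (h + 2) ^ C₁ ≤ N a := fun a =>
      (Nat.pow_le_pow_right (by omega) (le_max_left _ _)).trans (hN a)
    have hN₂ : ∀ a, (h + 2) ^ C₂ ≤ N a := fun a =>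
      (Nat.pow_le_pow_right (by omega) (le_max_right _ _)).trans (hN a)
    set N' : Fin t → ℕ := fun a => N a.castSucc with hN'
    set R' : Fin t → Fin K → Fin r → ℕ := fun a => R a.castSucc with hR'
    have hold := hC₁ K h N' R' (fun a q => hinj a.castSucc q) (fun a q i => hR a.castSucc q i)
      (fun a q q' i i' => hd a.castSucc q q' i i') (fun a => hN₁ a.castSucc) H (fun a => hH a.castSucc) c hc hcb
    set B := badQ δ (max C₁ C₂) H N R c with hB
    set B' := badQ δ C₁ H N' R' c with hB'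
    have hfib : B.card = ∑ q' : Fin t → Fin K, (B.filter fun q => (fun a => q (Fin.castSucc a)) = q').card :=
      Finset.card_eq_sum_card_fiberwise (f := fun q : Fin (t + 1) → Fin K => fun a => q (Fin.castSucc a))
        (t := Finset.univ) (fun _ _ => Finset.mem_coe.2 (Finset.mem_univ _))
    have hinj2 : ∀ q' : Fin t → Fin K, Set.InjOn (fun q : Fin (t + 1) → Fin K => q (Fin.last t))
        ((B.filter fun q => (fun a => q (Fin.castSucc a)) = q' : Finset _) : Set (Fin (t + 1) → Fin K)) := by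
      intro q' q₁ hq₁ q₂ hq₂ h12
      have h1 := (Finset.mem_filter.1 hq₁).2
      have h2 := (Finset.mem_filter.1 hq₂).2
      funext a
      refine Fin.lastCases ?_ (fun a => ?_) a
      · exact h12
      · exact (congrFun h1 a).trans (congrFun h2 a).symm
    have hcard1 : ∀ q' : Fin t → Fin K, (B.filter fun q => (fun a => q (Fin.castSucc a)) = q').card ≤ K := by
      intro q'
      have h1 := Finset.card_le_card_of_injOn (fun q : Fin (t + 1) → Fin K => q (Fin.last t))
        (t := Finset.univ) (fun _ _ => Finset.mem_coe.2 (Finset.mem_univ _)) (hinj2 q')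
      rwa [Finset.card_univ, Fintype.card_fin] at h1
    have hcard2 : ∀ q' : Fin t → Fin K, q' ∉ B' →
        (B.filter fun q => (fun a => q (Fin.castSucc a)) = q').card ≤ r * t + Fintype.card κ + 2 := by
      intro q' hq'
      have hgood : ¬ BadT δ C₁ H (Sum.elim (fun x : Fin t × Fin r => N' x.1 + R' x.1 (q' x.1) x.2) c) := fun h =>
        hq' (Finset.mem_filter.2 ⟨Finset.mem_univ _, h⟩)
      obtain ⟨S, hS1, hS2⟩ := hC₂ (N (Fin.last t)) h H (hN₂ _) (hH _)
        (Sum.elim (fun x : Fin t × Fin r => N' x.1 + R' x.1 (q' x.1) x.2) c) (by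
          rintro (x | i)
          · have h0 := (hR x.1.castSucc (q' x.1) x.2).1
            have h1 := (hR x.1.castSucc (q' x.1) x.2).2
            have h2 := hH x.1.castSucc
            show 0 < N x.1.castSucc + R x.1.castSucc (q' x.1) x.2 ∧ N x.1.castSucc + R x.1.castSucc (q' x.1) x.2 ≤ H
            omega
          · exact hc i) hgood
      have h1 : (B.filter fun q => (fun a => q (Fin.castSucc a)) = q').card ≤ S.card := by
        refine (Finset.card_image_of_injOn (hinj2 q')).symm.le.trans ?_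
        refine hit_count (R (Fin.last t)) (hd (Fin.last t)) S _ fun b hb => ?_
        obtain ⟨q, hq, hqb⟩ := Finset.mem_image.1 hb
        obtain ⟨hq1, hq2⟩ := Finset.mem_filter.1 hq
        have hbad := (Finset.mem_filter.1 hq1).2
        by_contra hcon
        push Not at hcon
        refine hS2 (R (Fin.last t) b) (hinj _ _) (fun i => ⟨(hR _ _ i).1, (hR _ _ i).2, hcon i⟩) ?_
        have h2 := (hbad.mono (le_max_right C₁ C₂)).comp (Equiv.ofBijective _ (sh_bij t r κ))
        have h3 : (Sum.elim (fun x : Fin (t + 1) × Fin r => N x.1 + R x.1 (q x.1) x.2) c) ∘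
            (Equiv.ofBijective _ (sh_bij t r κ)) = Sum.elim (fun i => N (Fin.last t) + R (Fin.last t) b i)
              (Sum.elim (fun x : Fin t × Fin r => N' x.1 + R' x.1 (q' x.1) x.2) c) := by
          funext y
          rcases y with i | x | z
          · show N (Fin.last t) + R (Fin.last t) (q (Fin.last t)) i = N (Fin.last t) + R (Fin.last t) b i
            rw [← hqb]
          · show N x.1.castSucc + R x.1.castSucc (q x.1.castSucc) x.2 = N x.1.castSucc + R x.1.castSucc (q' x.1) x.2
            rw [← hq2]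
          · rfl
        rw [h3] at h2
        exact h2
      refine h1.trans (hS1.trans ?_)
      rw [Fintype.card_sum, Fintype.card_prod, Fintype.card_fin, Fintype.card_fin, Nat.mul_comm]
    have hsum : B.card ≤ B'.card * K + K ^ t * (r * t + Fintype.card κ + 2) := by
      rw [hfib]
      have h1 : ∀ q' : Fin t → Fin K, (B.filter fun q => (fun a => q (Fin.castSucc a)) = q').card ≤
          (if q' ∈ B' then K else 0) + (r * t + Fintype.card κ + 2) := by
        intro q'
        split_ifs with h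
        · have := hcard1 q'
          omega
        · have := hcard2 q' h
          omega
      refine (Finset.sum_le_sum fun q' _ => h1 q').trans ?_
      rw [Finset.sum_add_distrib, Finset.sum_ite_mem, Finset.univ_inter, Finset.sum_const, Finset.sum_const,
        Finset.card_univ, Fintype.card_pi_const, Fintype.card_fin, smul_eq_mul, smul_eq_mul]
    calc B.card * K ≤ (B'.card * K + K ^ t * (r * t + Fintype.card κ + 2)) * K := Nat.mul_le_mul_right K hsum
      _ ≤ (t * (r * t + Fintype.card κ + 2) * K ^ t + K ^ t * (r * t + Fintype.card κ + 2)) * K :=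
          Nat.mul_le_mul_right K (Nat.add_le_add_right hold _)
      _ = (t + 1) * (r * t + Fintype.card κ + 2) * K ^ (t + 1) := by ring
      _ ≤ (t + 1) * (r * (t + 1) + Fintype.card κ + 2) * K ^ (t + 1) := by
          refine Nat.mul_le_mul_right _ (Nat.mul_le_mul_left _ ?_)
          have : r * t ≤ r * (t + 1) := Nat.mul_le_mul_left r (Nat.le_succ t)
          omega

end Pool.Agent.Run7.h643.MS
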