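import Mathlib
import Pool.Agent.Run7.h643.MS.Game
import Pool.Agent.Run7.h643.MW.RunsM

/-!
# Runs of consecutive primes whose logarithms satisfy the measure at almost all heights
-/

set_option autoImplicit false

namespace Pool.Agent.Run7.h643.MS

open Finset Filter

theorem sum_count {t K : ℕ} (n : ℕ) (B : ℕ → Finset (Fin t → Fin K)) :
    ∑ q : Fin t → Fin K, ((range n).filter fun s => q ∈ B s).card = ∑ s ∈ range n, (B s).card := by
  simp_rw [Finset.card_filter]
  rw [Finset.sum_comm]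
  refine Finset.sum_congr rfl fun s _ => ?_
  rw [Finset.sum_ite_mem, Finset.univ_inter, Finset.card_eq_sum_ones]

theorem avg {t K : ℕ} (n Θ m E : ℕ) (hK : t * E * (m + Θ) < K) (hn : 0 < n) (B B' : ℕ → Finset (Fin t → Fin K))
    (hB : ∀ s, (B s).card * K ≤ t * E * K ^ t) (hB' : ∀ s, (B' s).card * K ≤ t * E * K ^ t) :
    ∃ q, (∀ s < Θ, q ∉ B' s) ∧ m * ((range n).filter fun s => q ∈ B s).card < n := by
  by_contra hcon
  push Not at hcon
  have h1 : ∀ q : Fin t → Fin K, n ≤ m * ((range n).filter fun s => q ∈ B s).card +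
      n * ((range Θ).filter fun s => q ∈ B' s).card := by
    intro q
    by_cases h : ∀ s < Θ, q ∉ B' s
    · exact (hcon q h).trans (Nat.le_add_right _ _)
    · push Not at h
      obtain ⟨s, hs, hq⟩ := h
      have h2 : 0 < ((range Θ).filter fun s => q ∈ B' s).card :=
        Finset.card_pos.2 ⟨s, Finset.mem_filter.2 ⟨Finset.mem_range.2 hs, hq⟩⟩
      have h3 : n * 1 ≤ n * ((range Θ).filter fun s => q ∈ B' s).card := Nat.mul_le_mul_left n h2
      omega
  have h2 := Finset.sum_le_sum fun (q : Fin t → Fin K) (_ : q ∈ Finset.univ) => h1 q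
  rw [Finset.sum_const, Finset.card_univ, Fintype.card_pi_const, Fintype.card_fin, smul_eq_mul,
    Finset.sum_add_distrib, ← Finset.mul_sum, ← Finset.mul_sum, sum_count, sum_count] at h2
  have h3 : (∑ s ∈ range n, (B s).card) * K ≤ n * (t * E * K ^ t) := by
    rw [Finset.sum_mul]
    refine (Finset.sum_le_sum fun s _ => hB s).trans ?_
    rw [Finset.sum_const, Finset.card_range, smul_eq_mul]
  have h4 : (∑ s ∈ range Θ, (B' s).card) * K ≤ Θ * (t * E * K ^ t) := by
    rw [Finset.sum_mul]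
    refine (Finset.sum_le_sum fun s _ => hB' s).trans ?_
    rw [Finset.sum_const, Finset.card_range, smul_eq_mul]
  have hKp : 0 < K := by omega
  have hKt : 0 < K ^ t := Nat.pow_pos hKp
  have h5 : K ^ t * n * K ≤ K ^ t * n * (t * E * (m + Θ)) := by
    calc K ^ t * n * K ≤ (m * ∑ s ∈ range n, (B s).card + n * ∑ s ∈ range Θ, (B' s).card) * K :=
          Nat.mul_le_mul_right K h2
      _ = m * ((∑ s ∈ range n, (B s).card) * K) + n * ((∑ s ∈ range Θ, (B' s).card) * K) := by ring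
      _ ≤ m * (n * (t * E * K ^ t)) + n * (Θ * (t * E * K ^ t)) :=
          Nat.add_le_add (Nat.mul_le_mul_left m h3) (Nat.mul_le_mul_left n h4)
      _ = _ := by ring
  have h6 := Nat.le_of_mul_le_mul_left h5 (Nat.mul_pos hKt hn)
  omega

/-- consecutive primes in an interval -/
theorem primes_in (n L N : ℕ) (hcnt : n ≤ ((Finset.Icc (N + 1) (N + L)).filter Nat.Prime).card) :
    ∃ k₀ : ℕ, ∀ j < n, N + 1 ≤ Nat.nth Nat.Prime (k₀ + j) ∧ Nat.nth Nat.Prime (k₀ + j) ≤ N + L := by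
  classical
  have hprinf : (Set.ofPred Nat.Prime).Infinite := Nat.infinite_setOfPred_prime
  set k₀ := Nat.count Nat.Prime (N + 1) with hk₀
  have hcount : k₀ + n ≤ Nat.count Nat.Prime (N + L + 1) := by
    have h1 : Nat.count Nat.Prime (N + 1) + ((Finset.Icc (N + 1) (N + L)).filter Nat.Prime).card ≤
        Nat.count Nat.Prime (N + L + 1) := by
      rw [Nat.count_eq_card_filter_range, Nat.count_eq_card_filter_range, ← Finset.card_union_of_disjoint]
      · refine Finset.card_le_card fun a ha => ?_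
        rw [Finset.mem_union, Finset.mem_filter, Finset.mem_filter, Finset.mem_range, Finset.mem_Icc] at ha
        rw [Finset.mem_filter, Finset.mem_range]
        rcases ha with ha | ha
        · exact ⟨by omega, ha.2⟩
        · exact ⟨by omega, ha.2⟩
      · rw [Finset.disjoint_left]
        intro a ha hb
        rw [Finset.mem_filter, Finset.mem_range] at ha
        rw [Finset.mem_filter, Finset.mem_Icc] at hb
        omega
    omega
  refine ⟨k₀, fun i hi => ⟨?_, ?_⟩⟩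
  · exact (Nat.count_le_iff_le_nth hprinf).1 (by omega)
  · have h1 : Nat.nth Nat.Prime (k₀ + i) < N + L + 1 :=
      (Nat.lt_nth_iff_count_lt hprinf).1 (by omega)
    omega

/-- **Runs of consecutive primes in several intervals**, good at `Θ` given heights and at almost all heights of a given
sequence -/
theorem runs_good (t r k : ℕ) : ∃ C : ℕ → ℕ → ℕ, ∀ m Θ : ℕ, ∃ (L : ℕ) (M : Set ℕ), M.Infinite ∧
    ∀ (δ C₀ : ℕ) (N : Fin t → ℕ), (∀ a, N a ∈ M ∧ (L + 2) ^ C δ C₀ ≤ N a) →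
    ∀ A A' : ℕ → ℕ, (∀ s a, N a + L ≤ A s) → (∀ s a, N a + L ≤ A' s) →
    ∀ c : Fin k → ℕ, (∀ i, 0 < c i) → (∀ s, (∀ i, c i ≤ A s) ∧ ¬ BadT δ C₀ (A s) c) →
    (∀ s, (∀ i, c i ≤ A' s) ∧ ¬ BadT δ C₀ (A' s) c) →
    ∃ n : Fin t → ℕ, (∀ a (i : Fin r), N a < Nat.nth Nat.Prime (n a + i) ∧ Nat.nth Nat.Prime (n a + i) ≤ N a + L) ∧
      (∀ s < Θ, ¬ BadT δ (C δ C₀) (A' s) (Sum.elim (fun x : Fin t × Fin r => Nat.nth Nat.Prime (n x.1 + x.2)) c)) ∧
      ∀ n₀ : ℕ, ∃ n', n₀ ≤ n' ∧ ∃ D : Finset ℕ, m * D.card < n' ∧ ∀ s < n', s ∉ D →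
        ¬ BadT δ (C δ C₀) (A s) (Sum.elim (fun x : Fin t × Fin r => Nat.nth Nat.Prime (n x.1 + x.2)) c) := by
  classical
  choose C hC using fun δ C₀ => bad_count (Fin k) r δ C₀ t
  refine ⟨C, fun m Θ => ?_⟩
  set E := r * t + k + 2 with hE
  set K := t * E * (m + Θ) + 1 with hK
  obtain ⟨L, hL⟩ := MW.prime_clusters (r * K)
  refine ⟨L, {N : ℕ | r * K ≤ ((Finset.Icc (N + 1) (N + L)).filter Nat.Prime).card},
    hL, fun δ C₀ N hN A A' hA hA' c hc0 hcA hcA' => ?_⟩
  choose k₀ hk₀ using fun a => primes_in (r * K) L (N a) (hN a).1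
  have hprinf : (Set.ofPred Nat.Prime).Infinite := Nat.infinite_setOfPred_prime
  have hidx : ∀ (q : Fin K) (i : Fin r), r * (q : ℕ) + i < r * K := by
    intro q i
    calc r * (q : ℕ) + i < r * q + r := by have := i.2; omega
      _ = r * (q + 1) := by ring
      _ ≤ r * K := Nat.mul_le_mul_left r q.2
  set R : Fin t → Fin K → Fin r → ℕ := fun a q i => Nat.nth Nat.Prime (k₀ a + (r * q + i)) - N a with hR
  have hNR : ∀ a q i, N a + R a q i = Nat.nth Nat.Prime (k₀ a + (r * q + i)) := by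
    intro a q i
    have := (hk₀ a _ (hidx q i)).1
    show N a + (Nat.nth Nat.Prime (k₀ a + (r * q + i)) - N a) = _
    omega
  have hRle : ∀ a q i, 0 < R a q i ∧ R a q i ≤ L := by
    intro a q i
    have h1 := hk₀ a _ (hidx q i)
    have h2 := hNR a q i
    omega
  have hidx2 : ∀ a (q q' : Fin K) (i i' : Fin r), R a q i = R a q' i' → r * (q : ℕ) + i = r * (q' : ℕ) + i' := by
    intro a q q' i i' h
    have h1 := hNR a q i
    have h2 := hNR a q' i'
    rw [h, h2] at h1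
    have h3 := Nat.nth_injective hprinf h1
    omega
  have hRinj : ∀ a q, Function.Injective (R a q) := fun a q i i' h => Fin.ext (by
    have := hidx2 a q q i i' h
    omega)
  have hRd : ∀ a q q' i i', R a q i = R a q' i' → q = q' := by
    intro a q q' i i' h
    have h1 := hidx2 a q q' i i' h
    have h2 : (i : ℕ) + r * q = i' + r * q' := by omega
    have hr : 0 < r := (Nat.zero_le _).trans_lt i.2
    have h11 := congrArg (· / r) h2
    simp only [Nat.add_mul_div_left _ _ hr, Nat.div_eq_of_lt i.2, Nat.div_eq_of_lt i'.2, zero_add] at h11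
    exact Fin.ext h11
  have hmain : ∀ H, (∀ a, N a + L ≤ H) → ((∀ i, c i ≤ H) ∧ ¬ BadT δ C₀ H c) →
      (badQ δ (C δ C₀) H N R c).card * K ≤ t * E * K ^ t := by
    intro H hH hcH
    have h1 := hC δ C₀ K L N R hRinj hRle hRd (fun a => (hN a).2) H hH c (fun i => ⟨hc0 i, hcH.1 i⟩) hcH.2
    rwa [Fintype.card_fin] at h1
  have hex : ∀ n : ℕ, 0 < n → ∃ q : Fin t → Fin K, (∀ s < Θ, q ∉ badQ δ (C δ C₀) (A' s) N R c) ∧
      m * ((range n).filter fun s => q ∈ badQ δ (C δ C₀) (A s) N R c).card < n := fun n hn =>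
    avg n Θ m E (by omega) hn (fun s => badQ δ (C δ C₀) (A s) N R c) (fun s => badQ δ (C δ C₀) (A' s) N R c)
      (fun s => hmain _ (hA s) (hcA s)) fun s => hmain _ (hA' s) (hcA' s)
  obtain ⟨q, hq⟩ : ∃ q : Fin t → Fin K, ∀ n₀ : ℕ, ∃ n, n₀ ≤ n ∧ (∀ s < Θ, q ∉ badQ δ (C δ C₀) (A' s) N R c) ∧
      m * ((range n).filter fun s => q ∈ badQ δ (C δ C₀) (A s) N R c).card < n := by
    by_contra hcon
    push Not at hcon
    choose f hf using hcon
    set n := 1 + ∑ q, f q with hn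
    obtain ⟨q, hq1, hq2⟩ := hex n (by omega)
    have h1 : f q ≤ ∑ q, f q := Finset.single_le_sum (fun _ _ => Nat.zero_le _) (Finset.mem_univ q)
    have h2 := hf q n (by omega) hq1
    omega
  have hgood : ∀ H, q ∉ badQ δ (C δ C₀) H N R c → ¬ BadT δ (C δ C₀) H
      (Sum.elim (fun x : Fin t × Fin r => Nat.nth Nat.Prime (k₀ x.1 + r * (q x.1 : ℕ) + x.2)) c) := by
    intro H hH hbad
    apply hH
    refine Finset.mem_filter.2 ⟨Finset.mem_univ _, ?_⟩
    have h1 : (fun x : Fin t × Fin r => N x.1 + R x.1 (q x.1) x.2) =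
        fun x : Fin t × Fin r => Nat.nth Nat.Prime (k₀ x.1 + r * (q x.1 : ℕ) + x.2) := by
      funext x
      rw [hNR, add_assoc]
    rw [h1]
    exact hbad
  refine ⟨fun a => k₀ a + r * (q a : ℕ), fun a i => ?_, fun s hs => ?_, fun n₀ => ?_⟩
  · have h1 := hk₀ a _ (hidx (q a) i)
    rw [← add_assoc] at h1
    show N a < Nat.nth Nat.Prime (k₀ a + r * (q a : ℕ) + i) ∧ Nat.nth Nat.Prime (k₀ a + r * (q a : ℕ) + i) ≤ N a + L
    exact ⟨by omega, h1.2⟩
  · obtain ⟨n, -, h1, -⟩ := hq 0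
    exact hgood _ (h1 s hs)
  · obtain ⟨n, hn, -, h2⟩ := hq n₀
    refine ⟨n, hn, (range n).filter fun s => q ∈ badQ δ (C δ C₀) (A s) N R c, h2, fun s hs hsD => hgood _ fun h => hsD ?_⟩
    exact Finset.mem_filter.2 ⟨Finset.mem_range.2 hs, h⟩

end Pool.Agent.Run7.h643.MS
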